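import Mathlib

/-!
# Sets of integers with a prescribed sphere: the greedy construction
-/

set_option autoImplicit false

open Finset

namespace Pool.Agent.Q53.TS

/-- `s` is a sum of at most `k` elements of `F` -/
def SumLe (F : Set ℤ) (k : ℕ) (s : ℤ) : Prop :=
  ∃ l : List ℤ, l.length ≤ k ∧ (∀ x ∈ l, x ∈ F) ∧ l.sum = s

theorem SumLe.mono {F G : Set ℤ} {k k' : ℕ} {s : ℤ} (h : SumLe F k s) (hFG : F ⊆ G) (hk : k ≤ k') :
    SumLe G k' s := by
  obtain ⟨l, h1, h2, h3⟩ := h
  exact ⟨l, h1.trans hk, fun x hx => hFG (h2 x hx), h3⟩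

theorem SumLe.neg {F : Set ℤ} {k : ℕ} {s : ℤ} (hF : ∀ x ∈ F, -x ∈ F) (h : SumLe F k s) :
    SumLe F k (-s) := by
  obtain ⟨l, h1, h2, h3⟩ := h
  refine ⟨l.map (fun x => -x), by simpa using h1, ?_, ?_⟩
  · intro x hx
    rw [List.mem_map] at hx
    obtain ⟨y, hy, rfl⟩ := hx
    exact hF y (h2 y hy)
  · rw [← h3]
    have key : ∀ l : List ℤ, (l.map (fun x => -x)).sum = -l.sum := by
      intro l
      induction l with
      | nil => simp
      | cons a l ih =>
        rw [List.map_cons, List.sum_cons, List.sum_cons, ih]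
        ring
    exact key l

/-- sums of elements of `F ∪ {y, -y}` -/
theorem SumLe.split {F : Set ℤ} {y : ℤ} {k : ℕ} {s : ℤ} (h : SumLe (F ∪ {y, -y}) k s) :
    ∃ (c : ℤ) (k' : ℕ) (s' : ℤ), s = c * y + s' ∧ c.natAbs + k' ≤ k ∧ SumLe F k' s' := by
  obtain ⟨l, h1, h2, h3⟩ := h
  induction l generalizing k s with
  | nil => exact ⟨0, 0, 0, by simpa using h3.symm, by simp, ⟨[], by simp, by simp, by simp⟩⟩
  | cons a l ih =>
    rw [List.length_cons] at h1
    obtain ⟨c, k', s', e1, e2, l', e3, e4, e5⟩ := ih (k := l.length) (s := l.sum) le_rfl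
      (fun x hx => h2 x (List.mem_cons_of_mem _ hx)) rfl
    rw [List.sum_cons] at h3
    rcases h2 a List.mem_cons_self with ha | ha | ha
    · refine ⟨c, k' + 1, a + s', ?_, by omega, a :: l', by simp; omega, ?_, by simp [e5]⟩
      · rw [← h3, e1]; ring
      · intro x hx
        rw [List.mem_cons] at hx
        rcases hx with rfl | hx
        · exact ha
        · exact e4 x hx
    · refine ⟨c + 1, k', s', ?_, by omega, l', e3, e4, e5⟩
      rw [← h3, e1, ha]; ring
    · rw [Set.mem_singleton_iff] at ha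
      refine ⟨c - 1, k', s', ?_, by omega, l', e3, e4, e5⟩
      rw [← h3, e1, ha]; ring

/-- bounded sets have bounded sums -/
theorem SumLe.bound {F : Set ℤ} {M : ℤ} (hM : 0 ≤ M) (hF : ∀ x ∈ F, |x| ≤ M) {k : ℕ} {s : ℤ}
    (h : SumLe F k s) : |s| ≤ k * M := by
  obtain ⟨l, h1, h2, h3⟩ := h
  have key : ∀ l : List ℤ, (∀ x ∈ l, x ∈ F) → |l.sum| ≤ l.length * M := by
    intro l
    induction l with
    | nil => intro _; simp
    | cons a l ih =>
      intro hl
      rw [List.sum_cons, List.length_cons]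
      have h4 := ih fun x hx => hl x (List.mem_cons_of_mem _ hx)
      have h5 := hF a (hl a List.mem_cons_self)
      have h6 := abs_add_le a l.sum
      push_cast
      linarith
  rw [← h3]
  refine (key l h2).trans ?_
  have : (l.length : ℤ) ≤ k := by exact_mod_cast h1
  exact mul_le_mul_of_nonneg_right this hM

variable (D : ℕ) (W : Finset ℤ)

/-- the invariant: `W` is avoided by all sums of at most `D` elements -/
def Avoid (F : Set ℤ) : Prop := ∀ s, SumLe F D s → s ∉ W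

/-- the invariant for the partial targets -/
def Part (F : Set ℤ) (g : ℕ) (n : ℤ) : Prop :=
  ∀ (e : ℤ) (k : ℕ) (s : ℤ), e ≠ 0 → g * e.natAbs + k ≤ D → SumLe F k s → e * n + s ∉ W

variable {D W}

theorem Avoid.step {F : Set ℤ} {M y : ℤ} (hM : 0 ≤ M) (hF : ∀ x ∈ F, |x| ≤ M) (hW : ∀ w ∈ W, |w| ≤ M)
    (hy : (D + 1) * M < y) (h : Avoid D W F) : Avoid D W (F ∪ {y, -y}) := by
  intro s hs
  obtain ⟨c, k', s', e1, e2, e3⟩ := hs.split
  by_cases hc : c = 0
  · subst hc
    rw [zero_mul, zero_add] at e1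
    subst e1
    exact h s (e3.mono (le_refl _) (by omega))
  · intro hsW
    have h1 := e3.bound hM hF
    have h2 := hW s hsW
    have h3 : (k' : ℤ) ≤ D := by
      have : k' ≤ D := by omega
      exact_mod_cast this
    have h4 : (k' : ℤ) * M ≤ D * M := mul_le_mul_of_nonneg_right h3 hM
    have hD : (0 : ℤ) ≤ D * M := by positivity
    have hy0 : 0 < y := by nlinarith
    have h5 : y ≤ |c * y| := by
      rw [abs_mul, abs_of_pos hy0]
      have : 1 ≤ |c| := Int.one_le_abs hc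
      nlinarith
    have h6 : c * y = s - s' := by rw [e1]; ring
    rw [h6] at h5
    have h7 := abs_sub s s'
    linarith

theorem Part.step {F : Set ℤ} {M y n : ℤ} {g : ℕ} (hM : 0 ≤ M) (hF : ∀ x ∈ F, |x| ≤ M)
    (hW : ∀ w ∈ W, |w| ≤ M) (hn : |n| ≤ M) (hy : (2 * D + 1) * M < y) (h : Part D W F (g + 1) n)
    (hg : 1 ≤ g) :
    Part D W (F ∪ {y, -y}) g (n - y) := by
  intro e k s he hk hs
  obtain ⟨c, k', s', e1, e2, e3⟩ := hs.split
  have hge : e.natAbs ≤ g * e.natAbs := Nat.le_mul_of_pos_left _ hg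
  by_cases hc : c = e
  · subst hc
    have e4 : c * (n - y) + s = c * n + s' := by rw [e1]; ring
    rw [e4]
    refine h c k' s' he ?_ e3
    rw [add_mul, one_mul]
    omega
  · intro hsW
    have h1 := e3.bound hM hF
    have h2 := hW _ hsW
    have h3 : (k' : ℤ) + |e| ≤ D := by
      have : k' + e.natAbs ≤ D := by omega
      rw [Int.abs_eq_natAbs]
      exact_mod_cast this
    have hk0 : (0 : ℤ) ≤ k' := Nat.cast_nonneg _
    have he0 : 0 ≤ |e| := abs_nonneg _
    have hy0 : 0 < y := by nlinarith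
    have h5 : y ≤ |(c - e) * y| := by
      rw [abs_mul, abs_of_pos hy0]
      have : 1 ≤ |c - e| := Int.one_le_abs (sub_ne_zero.2 hc)
      nlinarith
    have h6 : (c - e) * y = (e * (n - y) + s) - (e * n + s') := by rw [e1]; ring
    rw [h6] at h5
    have h7 := abs_sub (e * (n - y) + s) (e * n + s')
    have h8 := abs_add_le (e * n) s'
    have h9 : |e * n| ≤ |e| * M := by
      rw [abs_mul]
      exact mul_le_mul_of_nonneg_left hn he0
    have h10 : |e| * M + k' * M ≤ D * M := by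
      rw [← add_mul]
      apply mul_le_mul_of_nonneg_right _ hM
      linarith
    have hD : (0 : ℤ) ≤ D * M := by positivity
    linarith

theorem Part.fin {F : Set ℤ} {n : ℤ} (h : Part D W F 1 n) (hA : Avoid D W F) :
    Avoid D W (F ∪ {n, -n}) := by
  intro s hs
  obtain ⟨c, k', s', e1, e2, e3⟩ := hs.split
  by_cases hc : c = 0
  · subst hc
    rw [zero_mul, zero_add] at e1
    subst e1
    exact hA s (e3.mono (le_refl _) (by omega))
  · rw [e1]
    exact h c k' s' hc (by omega) e3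

/-- the classes -/
structure Cls (R : Set ℤ) (m : ℕ) : Prop where
  pos : 0 < m
  neg : ∀ x ∈ R, -x ∈ R
  per : ∀ x ∈ R, x + m ∈ R

theorem Cls.per' {R : Set ℤ} {m : ℕ} (h : Cls R m) {x : ℤ} (hx : x ∈ R) (q : ℤ) : x + q * m ∈ R := by
  have h1 : ∀ q : ℕ, ∀ x ∈ R, x + q * m ∈ R := by
    intro q
    induction q with
    | zero => intro x hx; simpa using hx
    | succ q ih =>
      intro x hx
      have := h.per _ (ih x hx)
      have e : x + ((q + 1 : ℕ) : ℤ) * m = x + q * m + m := by push_cast; ring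
      rw [e]
      exact this
  rcases le_total 0 q with hq | hq
  · obtain ⟨k, rfl⟩ := Int.eq_ofNat_of_zero_le hq
    exact h1 k x hx
  · obtain ⟨k, hk⟩ := Int.eq_ofNat_of_zero_le (neg_nonneg.2 hq)
    have h2 := h.neg _ (h1 k _ (h.neg _ hx))
    have e : -(-x + (k : ℤ) * m) = x + q * m := by
      have : q = -k := by omega
      rw [this]; ring
    rwa [e] at h2

/-- a large element of a class -/
theorem Cls.large {R : Set ℤ} {m : ℕ} (h : Cls R m) {ρ : ℤ} (hρ : ρ ∈ R) (M : ℤ) :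
    ∃ y ∈ R, M < y ∧ (m : ℤ) ∣ y - ρ := by
  refine ⟨ρ + (|M| + |ρ| + 1) * m, h.per' hρ _, ?_, ?_⟩
  · have h1 : (1 : ℤ) ≤ m := by exact_mod_cast h.pos
    have h2 := abs_nonneg M
    have h3 := abs_nonneg ρ
    have h4 := le_abs_self M
    have h5 := neg_abs_le ρ
    nlinarith
  · have e : ρ + (|M| + |ρ| + 1) * m - ρ = (|M| + |ρ| + 1) * m := by ring
    rw [e]
    exact Dvd.intro_left _ rfl

/-- the chain: finish the representation of the target `n` with `g` summands in prescribed classes -/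
theorem chain {R : Set ℤ} {m : ℕ} (hR : Cls R m) : ∀ (g : ℕ) (F : Finset ℤ) (n : ℤ) (l : List ℤ),
    l.length = g + 1 → (∀ x ∈ l, x ∈ R) → (m : ℤ) ∣ n - l.sum →
    Avoid D W (F : Set ℤ) → Part D W (F : Set ℤ) (g + 1) n → (∀ x ∈ F, x ∈ R ∧ -x ∈ F) →
    ∃ F' : Finset ℤ, F ⊆ F' ∧ Avoid D W (F' : Set ℤ) ∧ (∀ x ∈ F', x ∈ R ∧ -x ∈ F') ∧
      ∃ l' : List ℤ, l'.length = g + 1 ∧ (∀ x ∈ l', x ∈ F') ∧ l'.sum = n := by
  intro g
  induction g with
  | zero =>
    intro F n l hl hlR hdvd hA hP hF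
    classical
    refine ⟨F ∪ {n, -n}, subset_union_left, ?_, ?_, [n], rfl, ?_, by simp⟩
    · have := Part.fin (by simpa using hP) hA
      simpa using this
    · have hn : n ∈ R := by
        obtain ⟨x, rfl⟩ := List.length_eq_one_iff.1 (by simpa using hl)
        rw [List.sum_singleton] at hdvd
        obtain ⟨q, hq⟩ := hdvd
        have h1 := hR.per' (hlR x (by simp)) q
        have e : x + q * m = n := by linarith [mul_comm (m : ℤ) q]
        rwa [e] at h1
      intro x hx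
      rw [mem_union, mem_insert, mem_singleton] at hx
      rw [mem_union, mem_insert, mem_singleton]
      rcases hx with hx | rfl | rfl
      · exact ⟨(hF x hx).1, Or.inl (hF x hx).2⟩
      · exact ⟨hn, Or.inr (Or.inr rfl)⟩
      · exact ⟨hR.neg _ hn, Or.inr (Or.inl (neg_neg _))⟩
    · intro x hx
      rw [List.mem_singleton] at hx
      subst hx
      simp
  | succ g ih =>
    intro F n l hl hlR hdvd hA hP hF
    classical
    obtain ⟨ρ, l1, rfl⟩ := List.exists_cons_of_ne_nil (l := l) (by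
      intro h
      rw [h] at hl
      simp at hl)
    rw [List.length_cons] at hl
    rw [List.sum_cons] at hdvd
    -- the bound
    obtain ⟨M, hM, hFM, hWM, hnM⟩ : ∃ M : ℤ, 0 ≤ M ∧ (∀ x ∈ F, |x| ≤ M) ∧ (∀ w ∈ W, |w| ≤ M) ∧ |n| ≤ M := by
      refine ⟨∑ x ∈ F, |x| + ∑ w ∈ W, |w| + |n|, by positivity, ?_, ?_, ?_⟩
      · intro x hx
        have h1 := single_le_sum (f := fun x : ℤ => |x|) (fun i _ => abs_nonneg i) hx
        have h2 : 0 ≤ ∑ w ∈ W, |w| := sum_nonneg fun i _ => abs_nonneg i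
        have h3 := abs_nonneg n
        linarith
      · intro x hx
        have h1 := single_le_sum (f := fun x : ℤ => |x|) (fun i _ => abs_nonneg i) hx
        have h2 : 0 ≤ ∑ w ∈ F, |w| := sum_nonneg fun i _ => abs_nonneg i
        have h3 := abs_nonneg n
        linarith
      · have h1 : 0 ≤ ∑ w ∈ W, |w| := sum_nonneg fun i _ => abs_nonneg i
        have h2 : 0 ≤ ∑ w ∈ F, |w| := sum_nonneg fun i _ => abs_nonneg i
        linarith
    obtain ⟨y, hyR, hyM, hyρ⟩ := hR.large (hlR ρ List.mem_cons_self) ((2 * D + 1) * M)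
    have hDM : (0 : ℤ) ≤ D * M := by positivity
    obtain ⟨F', h1, h2, h3, l', h4, h5, h6⟩ := ih (F ∪ {y, -y}) (n - y) l1 (by omega)
      (fun x hx => hlR x (List.mem_cons_of_mem _ hx)) (by
        have e : n - y - l1.sum = (n - (ρ + l1.sum)) - (y - ρ) := by ring
        rw [e]
        exact dvd_sub hdvd hyρ) (by
        have := hA.step (y := y) hM (fun x hx => hFM x (by simpa using hx)) hWM (by nlinarith)
        simpa using this) (by
        have := Part.step (y := y) hM (fun x hx => hFM x (by simpa using hx)) hWM hnM hyM hP (by omega)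
        simpa using this) (by
        intro x hx
        rw [mem_union, mem_insert, mem_singleton] at hx
        rw [mem_union, mem_insert, mem_singleton]
        rcases hx with hx | rfl | rfl
        · exact ⟨(hF x hx).1, Or.inl (hF x hx).2⟩
        · exact ⟨hyR, Or.inr (Or.inr rfl)⟩
        · exact ⟨hR.neg _ hyR, Or.inr (Or.inl (neg_neg _))⟩)
    refine ⟨F', subset_union_left.trans h1, h2, h3, y :: l', by simp [h4], ?_, by simp [h6]⟩
    intro x hx
    rw [List.mem_cons] at hx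
    rcases hx with rfl | hx
    · apply h1
      simp
    · exact h5 x hx

/-- one target -/
theorem target {R : Set ℤ} {m : ℕ} (hR : Cls R m) (hD : 1 ≤ D)
    (hcov : ∀ n : ℤ, ∃ l : List ℤ, l.length = D ∧ (∀ x ∈ l, x ∈ R) ∧ (m : ℤ) ∣ n - l.sum)
    (hWs : ∀ w ∈ W, -w ∈ W)
    (F : Finset ℤ) (hA : Avoid D W (F : Set ℤ)) (hF : ∀ x ∈ F, x ∈ R ∧ -x ∈ F) (n : ℤ) (hn : n ∉ W) :
    ∃ F' : Finset ℤ, F ⊆ F' ∧ Avoid D W (F' : Set ℤ) ∧ (∀ x ∈ F', x ∈ R ∧ -x ∈ F') ∧
      ∃ l' : List ℤ, l'.length = D ∧ (∀ x ∈ l', x ∈ F') ∧ l'.sum = n := by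
  obtain ⟨l, hl, hlR, hdvd⟩ := hcov n
  obtain ⟨g, rfl⟩ : ∃ g, D = g + 1 := ⟨D - 1, by omega⟩
  refine chain hR g F n l hl hlR hdvd hA ?_ hF
  intro e k s he hk hs
  have h1 : e.natAbs = 1 ∧ k = 0 := by
    have h2 : 1 ≤ e.natAbs := Int.natAbs_pos.2 he
    have h3 : e.natAbs ≤ 1 := by
      by_contra hcon
      push Not at hcon
      have : (g + 1) * 2 ≤ (g + 1) * e.natAbs := Nat.mul_le_mul_left _ hcon
      omega
    have h4 : e.natAbs = 1 := le_antisymm h3 h2
    rw [h4] at hk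
    exact ⟨h4, by omega⟩
  obtain ⟨h2, rfl⟩ := h1
  obtain ⟨l, h3, h4, h5⟩ := hs
  have h6 : l = [] := List.length_eq_zero_iff.1 (by omega)
  subst h6
  rw [← h5]
  rcases Int.natAbs_eq_iff.1 h2 with h7 | h7
  · rw [h7]
    simpa using hn
  · rw [h7]
    intro hc
    apply hn
    have := hWs _ hc
    simpa using this

/-- the whole construction: an infinite symmetric set with representations of all `n ∉ W` by exactly `D`
summands and none of the elements of `W` by at most `D` summands -/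
theorem construct {R : Set ℤ} {m : ℕ} (hR : Cls R m) (hD : 1 ≤ D)
    (hcov : ∀ n : ℤ, ∃ l : List ℤ, l.length = D ∧ (∀ x ∈ l, x ∈ R) ∧ (m : ℤ) ∣ n - l.sum)
    (hWs : ∀ w ∈ W, -w ∈ W) (h0 : (0 : ℤ) ∉ W) :
    ∃ B : Set ℤ, (∀ x ∈ B, x ∈ R ∧ -x ∈ B) ∧ Avoid D W B ∧
      ∀ n : ℤ, n ∉ W → ∃ l : List ℤ, l.length = D ∧ (∀ x ∈ l, x ∈ B) ∧ l.sum = n := by
  classical
  -- the states
  let St := {F : Finset ℤ // Avoid D W (F : Set ℤ) ∧ ∀ x ∈ F, x ∈ R ∧ -x ∈ F}
  have st : ∀ (F : St) (n : ℤ), ∃ F' : St, F.1 ⊆ F'.1 ∧ (n ∉ W → ∃ l : List ℤ, l.length = D ∧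
      (∀ x ∈ l, x ∈ F'.1) ∧ l.sum = n) := by
    intro F n
    by_cases hn : n ∈ W
    · exact ⟨F, subset_refl _, fun h => absurd hn h⟩
    · obtain ⟨F', h1, h2, h3, h4⟩ := target hR hD hcov hWs F.1 F.2.1 F.2.2 n hn
      exact ⟨⟨F', h2, h3⟩, h1, fun _ => h4⟩
  choose nxt hn1 hn2 using st
  have e0 : Avoid D W ((∅ : Finset ℤ) : Set ℤ) := by
    rintro s ⟨l, h1, h2, h3⟩
    have h4 : l = [] := by
      rcases l with _ | ⟨a, l⟩
      · rfl
      · exact absurd (h2 a List.mem_cons_self) (by simp)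
    rw [← h3, h4]
    simpa using h0
  let F0 : St := ⟨∅, e0, by simp⟩
  let en : ℕ → ℤ := fun k => (Encodable.decode (α := ℤ) k).getD 0
  let Fs : ℕ → St := fun k => Nat.rec F0 (fun k F => nxt F (en k)) k
  have hs : ∀ k, Fs (k + 1) = nxt (Fs k) (en k) := fun k => rfl
  have hmono : Monotone (fun k => (Fs k).1) := by
    apply monotone_nat_of_le_succ
    intro k
    rw [hs]
    exact hn1 _ _
  refine ⟨⋃ k, ((Fs k).1 : Set ℤ), ?_, ?_, ?_⟩
  · intro x hx
    rw [Set.mem_iUnion] at hx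
    obtain ⟨k, hk⟩ := hx
    have := (Fs k).2.2 x (by simpa using hk)
    exact ⟨this.1, Set.mem_iUnion.2 ⟨k, by simpa using this.2⟩⟩
  · rintro s ⟨l, h1, h2, h3⟩
    have h4 : ∃ K, ∀ x ∈ l, x ∈ (Fs K).1 := by
      clear h1 h3
      induction l with
      | nil => exact ⟨0, by simp⟩
      | cons a l ih =>
        obtain ⟨K, hK⟩ := ih fun x hx => h2 x (List.mem_cons_of_mem _ hx)
        obtain ⟨K', hK'⟩ := Set.mem_iUnion.1 (h2 a List.mem_cons_self)
        refine ⟨max K K', fun x hx => ?_⟩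
        rw [List.mem_cons] at hx
        rcases hx with rfl | hx
        · exact hmono (le_max_right K K') (by simpa using hK')
        · exact hmono (le_max_left K K') (hK x hx)
    obtain ⟨K, hK⟩ := h4
    exact (Fs K).2.1 s ⟨l, h1, fun x hx => by simpa using hK x hx, h3⟩
  · intro n hn
    have e1 : en (Encodable.encode n) = n := by
      show (Encodable.decode (α := ℤ) (Encodable.encode n)).getD 0 = n
      rw [Encodable.encodek]
      rfl
    obtain ⟨l, h1, h2, h3⟩ := hn2 (Fs (Encodable.encode n)) (en (Encodable.encode n)) (by rwa [e1])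
    rw [e1] at h2 h3
    refine ⟨l, h1, fun x hx => ?_, h3⟩
    rw [Set.mem_iUnion]
    refine ⟨Encodable.encode n + 1, ?_⟩
    rw [hs, e1]
    simpa using h2 x hx

end Pool.Agent.Q53.TS
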