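import Pool.Agent.Q53.TS.Core

/-!
# Residue classes in which all elements of `W` have the maximal length
-/

set_option autoImplicit false

open Finset

namespace Pool.Agent.Q53.TS

/-- the numbers `± c b ^ i` -/
def T0 (D b N : ℕ) : Finset (ZMod N) :=
  (univ : Finset (Fin D × Fin b × Bool)).image
    (fun t => (if t.2.2 then (1 : ZMod N) else -1) * (((t.2.1 : ℕ) * b ^ (t.1 : ℕ) : ℕ) : ZMod N))

theorem T0_card (D b N : ℕ) : (T0 D b N).card ≤ 2 * D * b := by
  refine card_image_le.trans ?_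
  rw [card_univ, Fintype.card_prod, Fintype.card_prod, Fintype.card_fin, Fintype.card_fin, Fintype.card_bool]
  apply le_of_eq
  ring

theorem T0_neg {D b N : ℕ} {x : ZMod N} (h : x ∈ T0 D b N) : -x ∈ T0 D b N := by
  unfold T0 at h ⊢
  rw [mem_image] at h ⊢
  obtain ⟨⟨i, c, s⟩, _, rfl⟩ := h
  refine ⟨⟨i, c, !s⟩, mem_univ _, ?_⟩
  cases s <;> simp

theorem T0_zero {D b N : ℕ} (hD : 1 ≤ D) (hb : 1 ≤ b) : (0 : ZMod N) ∈ T0 D b N := by
  unfold T0
  rw [mem_image]
  exact ⟨⟨⟨0, hD⟩, ⟨0, hb⟩, true⟩, mem_univ _, by simp⟩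

/-- `k`-fold sums -/
def Tk {N : ℕ} (T : Finset (ZMod N)) : ℕ → Finset (ZMod N)
  | 0 => {0}
  | k + 1 => image₂ (· + ·) T (Tk T k)

theorem Tk_card {N : ℕ} (T : Finset (ZMod N)) (k : ℕ) : (Tk T k).card ≤ T.card ^ k := by
  induction k with
  | zero => simp [Tk]
  | succ k ih =>
    unfold Tk
    refine (card_image₂_le _ _ _).trans ?_
    rw [pow_succ, mul_comm]
    exact Nat.mul_le_mul_right _ ih

theorem Tk_mem {N : ℕ} {T : Finset (ZMod N)} (h0 : (0 : ZMod N) ∈ T) : ∀ (k : ℕ) (l : List (ZMod N)),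
    l.length ≤ k → (∀ x ∈ l, x ∈ T) → l.sum ∈ Tk T k := by
  intro k
  induction k with
  | zero =>
    intro l hl _
    have : l = [] := List.length_eq_zero_iff.1 (by omega)
    subst this
    simp [Tk]
  | succ k ih =>
    intro l hl hT
    unfold Tk
    rw [mem_image₂]
    rcases l with _ | ⟨a, l⟩
    · exact ⟨0, h0, 0, by simpa using ih [] (by simp) (by simp), by simp⟩
    · rw [List.length_cons] at hl
      exact ⟨a, hT a List.mem_cons_self, l.sum, ih l (by omega) fun x hx => hT x (List.mem_cons_of_mem _ hx),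
        by simp⟩

/-- digits -/
theorem digits (b n : ℕ) : ∀ D : ℕ, n % b ^ D = ∑ i ∈ range D, (n / b ^ i % b) * b ^ i := by
  intro D
  induction D with
  | zero => simp [Nat.mod_one]
  | succ D ih => rw [sum_range_succ, ← ih, Nat.mod_pow_succ, mul_comm (b ^ D)]

theorem classes (D : ℕ) (hD : 1 ≤ D) (W : Finset ℤ) (hW : (0 : ℤ) ∉ W) :
    ∃ (m : ℕ) (R : Set ℤ), Cls R m ∧ (0 : ℤ) ∈ R ∧
      (∀ n : ℤ, ∃ l : List ℤ, l.length = D ∧ (∀ x ∈ l, x ∈ R) ∧ (m : ℤ) ∣ n - l.sum) ∧
      ∀ w ∈ W, ∀ l : List ℤ, l.length + 1 ≤ D → (∀ x ∈ l, x ∈ R) → ¬ (m : ℤ) ∣ w - l.sum := by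
  classical
  obtain ⟨b, hbig, hb⟩ := Nat.exists_infinite_primes (W.card * (2 * D) ^ (D - 1) + 2 + ∑ w ∈ W, w.natAbs)
  have hb2 : 2 ≤ b := hb.two_le
  set N := b ^ D with hN
  have hN0 : 0 < N := pow_pos (by omega) _
  haveI : NeZero N := ⟨hN0.ne'⟩
  have hbN : b ∣ N := dvd_pow_self b (by omega)
  set T := T0 D b N with hT
  have hT0 : (0 : ZMod N) ∈ T := T0_zero hD (by omega)
  -- the elements of `W` are units
  have hWu : ∀ w ∈ W, IsUnit (w : ZMod N) := by
    intro w hw
    have h1 : w.natAbs < b := by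
      have := single_le_sum (f := fun w : ℤ => w.natAbs) (fun i _ => Nat.zero_le _) hw
      omega
    have h2 : w.natAbs ≠ 0 := by
      rw [Int.natAbs_ne_zero]
      rintro rfl
      exact hW hw
    have h3 : Nat.Coprime w.natAbs N := by
      apply Nat.Coprime.pow_right
      rw [Nat.coprime_comm, hb.coprime_iff_not_dvd]
      intro h
      have := Nat.le_of_dvd (by omega) h
      omega
    have h4 : IsUnit ((w.natAbs : ℕ) : ZMod N) := (ZMod.isUnit_iff_coprime _ _).2 h3
    rcases Int.natAbs_eq w with h5 | h5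
    · rw [h5]
      push_cast
      simpa using h4
    · rw [h5]
      push_cast
      simpa using h4.neg
  -- a good unit
  obtain ⟨u, hu⟩ : ∃ u : (ZMod N)ˣ, ∀ w ∈ W, (u : ZMod N) * w ∉ Tk T (D - 1) := by
    by_contra hcon
    push Not at hcon
    have h1 : (univ : Finset (ZMod N)ˣ) ⊆
        W.biUnion (fun w => univ.filter (fun u : (ZMod N)ˣ => (u : ZMod N) * w ∈ Tk T (D - 1))) := by
      intro u _
      obtain ⟨w, hw, h2⟩ := hcon u
      rw [mem_biUnion]
      exact ⟨w, hw, mem_filter.2 ⟨mem_univ _, h2⟩⟩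
    have h2 := card_le_card h1
    have h3 : (W.biUnion (fun w => univ.filter (fun u : (ZMod N)ˣ => (u : ZMod N) * w ∈ Tk T (D - 1)))).card ≤
        W.card * (2 * D * b) ^ (D - 1) := by
      refine card_biUnion_le_card_mul _ _ _ ?_
      intro w hw
      have h4 : (univ.filter (fun u : (ZMod N)ˣ => (u : ZMod N) * w ∈ Tk T (D - 1))).card ≤
          (Tk T (D - 1)).card := by
        apply card_le_card_of_injOn (fun u : (ZMod N)ˣ => (u : ZMod N) * w)
        · intro u hu
          exact (mem_filter.1 (mem_coe.1 hu)).2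
        · intro u _ v _ huv
          exact Units.ext ((hWu w hw).mul_left_injective huv)
      refine h4.trans ((Tk_card T _).trans ?_)
      exact Nat.pow_le_pow_left (T0_card D b N) _
    have h5 : (univ : Finset (ZMod N)ˣ).card = b ^ (D - 1) * (b - 1) := by
      rw [card_univ, ZMod.card_units_eq_totient, hN, Nat.totient_prime_pow hb (by omega)]
    rw [h5] at h2
    have h6 : W.card * (2 * D * b) ^ (D - 1) = b ^ (D - 1) * (W.card * (2 * D) ^ (D - 1)) := by
      rw [mul_pow]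
      ring
    have h7 := h2.trans h3
    rw [h6] at h7
    have h8 := Nat.le_of_mul_le_mul_left h7 (pow_pos (by omega : 0 < b) _)
    omega
  refine ⟨N, {x : ℤ | (u : ZMod N) * x ∈ T}, ⟨hN0, ?_, ?_⟩, ?_, ?_, ?_⟩
  · intro x hx
    rw [Set.mem_setOf_eq] at hx ⊢
    push_cast
    rw [mul_neg]
    exact T0_neg hx
  · intro x hx
    rw [Set.mem_setOf_eq] at hx ⊢
    push_cast
    rw [ZMod.natCast_self, add_zero]
    exact hx
  · rw [Set.mem_setOf_eq]
    simpa using hT0
  · intro n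
    set v : ZMod N := (u : ZMod N) * n with hv
    refine ⟨List.ofFn (fun i : Fin D => ((((u⁻¹ : (ZMod N)ˣ) : ZMod N) *
      (((v.val / b ^ (i : ℕ) % b) * b ^ (i : ℕ) : ℕ) : ZMod N)).val : ℤ)), by simp, ?_, ?_⟩
    · intro x hx
      rw [List.mem_ofFn] at hx
      obtain ⟨i, rfl⟩ := hx
      rw [Set.mem_setOf_eq]
      rw [Int.cast_natCast, ZMod.natCast_val, ZMod.cast_id', id, Units.mul_inv_cancel_left]
      rw [hT]
      unfold T0
      rw [mem_image]
      exact ⟨⟨i, ⟨v.val / b ^ (i : ℕ) % b, Nat.mod_lt _ (by omega)⟩, true⟩, mem_univ _, by simp⟩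
    · rw [← ZMod.intCast_eq_intCast_iff_dvd_sub]
      rw [List.sum_ofFn]
      push_cast
      have h1 : ∀ i : Fin D, (((((u⁻¹ : (ZMod N)ˣ) : ZMod N) *
          (((v.val / b ^ (i : ℕ) % b) * b ^ (i : ℕ) : ℕ) : ZMod N)).val : ℕ) : ZMod N) =
          ((u⁻¹ : (ZMod N)ˣ) : ZMod N) * (((v.val / b ^ (i : ℕ) % b) * b ^ (i : ℕ) : ℕ) : ZMod N) := by
        intro i
        rw [ZMod.natCast_val, ZMod.cast_id', id]
      have h2 : ∑ i : Fin D, (((((u⁻¹ : (ZMod N)ˣ) : ZMod N) *
          (((v.val / b ^ (i : ℕ) % b) * b ^ (i : ℕ) : ℕ) : ZMod N)).val : ℕ) : ZMod N) = (n : ZMod N) := by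
        rw [sum_congr rfl fun i _ => h1 i, ← mul_sum, ← Nat.cast_sum]
        rw [Fin.sum_univ_eq_sum_range (fun i => (v.val / b ^ i % b) * b ^ i) D, ← digits b v.val D,
          Nat.mod_eq_of_lt (ZMod.val_lt v), ZMod.natCast_val, ZMod.cast_id', id, hv, Units.inv_mul_cancel_left]
      have h3 := h2
      push_cast at h3
      exact h3
  · intro w hw l hl hlR hdvd
    apply hu w hw
    rw [← ZMod.intCast_eq_intCast_iff_dvd_sub] at hdvd
    have h1 : (u : ZMod N) * w = (l.map (fun x : ℤ => (u : ZMod N) * (x : ZMod N))).sum := by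
      rw [← hdvd]
      clear hl hlR hdvd
      induction l with
      | nil => simp
      | cons a l ih =>
        rw [List.sum_cons, List.map_cons, List.sum_cons, ← ih]
        push_cast
        ring
    rw [h1]
    apply Tk_mem hT0
    · rw [List.length_map]
      omega
    · intro x hx
      rw [List.mem_map] at hx
      obtain ⟨y, hy, rfl⟩ := hx
      exact hlR y hy

end Pool.Agent.Q53.TS
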